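import Pool.Agent.Work.MP_a8f287_co.C3.Main5
import Pool.Agent.Work.MP_a8f287_co.Frozen

set_option autoImplicit false

namespace Pool.Agent.Results.MP_a8f287_co.CriticalThree

open Pool.Agent.WW

/-- Let `v : ι → GF(2)^n` be a finite family of nonzero vectors (a coordinatization of a
loopless binary matroid `M` on `ι`, parallel elements allowed). If `M` has no minor isomorphic to
`M(K5)`, then its critical exponent is at most three: some linear map to `GF(2)^3` is nonzero on
all `v i`. -/
theorem result (n : ℕ) (ι : Type) [Finite ι] (v : ι → (Fin n → ZMod 2))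
    (h0 : ∀ i, v i ≠ 0)
    (hfree : ¬ ∃ (C : Set ι) (h : (⊤ : SimpleGraph (Fin 5)).edgeSet → ι),
          Function.Injective h ∧ (∀ e, h e ∉ C) ∧
          ∀ F : Set (⊤ : SimpleGraph (Fin 5)).edgeSet,
            (LinearIndependent (ZMod 2)
                (fun e : F => (Submodule.span (ZMod 2) (v '' C)).mkQ (v (h e.1))) ↔
              (SimpleGraph.fromEdgeSet (Subtype.val '' F)).IsAcyclic)) :
    ∃ f : (Fin n → ZMod 2) →ₗ[ZMod 2] (Fin 3 → ZMod 2), ∀ i, f (v i) ≠ 0 := by
  classical
  have hK : ¬ HasK5 (Set.range v) := by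
    intro hK
    obtain ⟨C, h, hC, hinj, hmem, hF⟩ := frozen_of_hasK5 (Set.range v) hK
    choose g hg using fun e => (hmem e).1
    have hC' : v '' (v ⁻¹' C) = C := Set.image_preimage_eq_of_subset hC
    refine hfree ⟨v ⁻¹' C, g, ?_, ?_, ?_⟩
    · intro a b hab
      apply hinj
      rw [← hg a, ← hg b, hab]
    · intro e he
      exact (hmem e).2 (by rw [← hg e]; exact he)
    · intro F
      rw [← hF F, hC']
      simp only [hg]
  have hr0 : (0 : Fin n → ZMod 2) ∉ Set.range v := by
    rintro ⟨i, hi⟩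
    exact h0 i hi
  have hfin : (Set.range v).Finite := Set.toFinite _
  obtain ⟨f, hf⟩ := crit_three hfin.toFinset (fun h => hr0 (hfin.mem_toFinset.1 h))
    (by rw [hfin.coe_toFinset]; exact hK)
  exact ⟨f, fun i => hf _ (hfin.mem_toFinset.2 ⟨i, rfl⟩)⟩

end Pool.Agent.Results.MP_a8f287_co.CriticalThree
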